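import Pool.Agent.TH414.Dil.Final
import Mathlib.Combinatorics.Additive.PluenneckeRuzsa
import Mathlib.Combinatorics.Additive.RuzsaCovering

/-!
# Local sums of dilates: expansions of the multiplier in a base

If `|B + n B| ≤ K |B|` for all `n ≤ J`, then `|B + l B| ≤ K ^ (10 m + 3) |B|` for all `l < J ^ m`.
-/

set_option autoImplicit false

namespace Pool.Agent.W5h6.LocDil

open Finset Pool.Agent.TH414.Dil
open scoped Pointwise Classical

variable {G : Type*} [AddCommGroup G]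

/-- the sums with the first `J` dilates are small -/
def LD (K : ℝ) (J : ℕ) (B : Finset G) : Prop :=
  ∀ n : ℕ, n ≤ J → ((B + nd n B).card : ℝ) ≤ K * B.card

theorem nd_one' (B : Finset G) : nd 1 B = B := by simp [nd]

theorem one_le_of_LD {K : ℝ} {J : ℕ} {B : Finset G} (hB : B.Nonempty) (h : LD K J B) : 1 ≤ K := by
  have h0 := h 0 (Nat.zero_le _)
  have h1 : (B.card : ℝ) ≤ (B + nd 0 B).card := by
    exact_mod_cast Finset.card_le_card_add_right (hB.image _)
  have h2 : (0 : ℝ) < B.card := by exact_mod_cast hB.card_pos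
  nlinarith

/-- Plünnecke's inequality -/
theorem plu {K : ℝ} {B : Finset G} (hB : B.Nonempty) (h : ((B + B).card : ℝ) ≤ K * B.card)
    (m n : ℕ) : ((m • B - n • B).card : ℝ) ≤ K ^ (m + n) * B.card := by
  have h1 := Finset.pluennecke_ruzsa_inequality_nsmul_sub_nsmul_add hB B m n
  have hc : (0 : ℝ) < B.card := by exact_mod_cast hB.card_pos
  have h2 : ((m • B - n • B).card : ℝ) ≤ (((B + B).card : ℝ) / B.card) ^ (m + n) * B.card := by
    have h3 : (((m • B - n • B).card : ℚ≥0) : ℝ) ≤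
        (((((B + B).card : ℚ≥0) / B.card) ^ (m + n) * B.card : ℚ≥0) : ℝ) := by
      exact_mod_cast h1
    push_cast at h3
    exact h3
  refine h2.trans (mul_le_mul_of_nonneg_right ?_ hc.le)
  refine pow_le_pow_left₀ (by positivity) ?_ _
  rw [div_le_iff₀ hc]
  exact h

/-- the digits lemma -/
theorem dig {K : ℝ} {J : ℕ} {B : Finset G} (hB : B.Nonempty) (h : LD K J B) (hJ : 1 ≤ J) (m : ℕ) :
    ∀ l : ℕ, l < J ^ m → ∃ X : Finset G, (X.card : ℝ) ≤ K ^ (10 * m) ∧ nd l B ⊆ X + (B - B) := by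
  have hK1 : 1 ≤ K := one_le_of_LD hB h
  have hK0 : 0 ≤ K := by linarith
  have hBB : ((B + B).card : ℝ) ≤ K * B.card := by
    have := h 1 hJ
    rwa [nd_one'] at this
  obtain ⟨Z, -, hZ, hZcov⟩ : ∃ Z ⊆ 3 • B - 3 • B, (Z.card : ℝ) ≤ K ^ 7 ∧
      3 • B - 3 • B ⊆ Z + (B - B) := by
    refine Finset.ruzsa_covering_add hB ?_
    have h1 : 3 • B - 3 • B + B = 4 • B - 3 • B := by
      rw [sub_eq_add_neg, sub_eq_add_neg, add_right_comm]
      congr 1
    rw [h1]
    exact plu hB hBB 4 3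
  have cov : ∀ n : ℕ, n ≤ J → ∃ X : Finset G, (X.card : ℝ) ≤ K ∧ nd n B ⊆ X + (B - B) := by
    intro n hn
    obtain ⟨X, -, hX, hc⟩ := Finset.ruzsa_covering_add (A := nd n B) (B := B) (K := K) hB (by
      rw [add_comm]; exact h n hn)
    exact ⟨X, hX, hc⟩
  induction m with
  | zero =>
    intro l hl
    have h0 : l = 0 := by simpa using hl
    subst h0
    refine ⟨{0}, by simp, ?_⟩
    intro x hx
    obtain ⟨b, hb, rfl⟩ := Finset.mem_image.1 hx
    refine Finset.mem_add.2 ⟨0, Finset.mem_singleton_self _, 0, ?_, by simp⟩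
    exact Finset.mem_sub.2 ⟨b, hb, b, hb, by simp⟩
  | succ m ih =>
    intro l hl
    have hJ0 : 0 < J := hJ
    obtain ⟨X', hX', hc'⟩ := ih (l / J) (Nat.div_lt_of_lt_mul (by rw [← pow_succ']; exact hl))
    obtain ⟨X₀, hX₀, hc₀⟩ := cov (l % J) (Nat.mod_lt _ hJ0).le
    obtain ⟨X₁, hX₁, hc₁⟩ := cov J le_rfl
    refine ⟨X₀ + nd J X' + (X₁ - X₁) + Z, ?_, ?_⟩
    · have e1 : (X₀ + nd J X' + (X₁ - X₁) + Z).card ≤
          X₀.card * X'.card * (X₁.card * X₁.card) * Z.card := by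
        refine Finset.card_add_le.trans (Nat.mul_le_mul_right _ ?_)
        refine Finset.card_add_le.trans (Nat.mul_le_mul ?_ Finset.card_sub_le)
        refine Finset.card_add_le.trans (Nat.mul_le_mul_left _ Finset.card_image_le)
      have e2 : ((X₀ + nd J X' + (X₁ - X₁) + Z).card : ℝ) ≤
          X₀.card * X'.card * (X₁.card * X₁.card) * Z.card := by exact_mod_cast e1
      refine e2.trans ?_
      calc (X₀.card : ℝ) * X'.card * (X₁.card * X₁.card) * Z.card
          ≤ K * K ^ (10 * m) * (K * K) * K ^ 7 := by gcongr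
        _ = K ^ (10 * (m + 1)) := by ring
    · intro x hx
      obtain ⟨b, hb, rfl⟩ := Finset.mem_image.1 hx
      obtain ⟨x', hx', y', hy', e'⟩ := Finset.mem_add.1 (hc' (Finset.mem_image_of_mem _ hb))
      obtain ⟨b1, hb1, b2, hb2, e12⟩ := Finset.mem_sub.1 hy'
      obtain ⟨x1, hx1, y1, hy1, e1⟩ := Finset.mem_add.1 (hc₁ (Finset.mem_image_of_mem _ hb1))
      obtain ⟨b3, hb3, b4, hb4, e34⟩ := Finset.mem_sub.1 hy1
      obtain ⟨x2, hx2, y2, hy2, e2⟩ := Finset.mem_add.1 (hc₁ (Finset.mem_image_of_mem _ hb2))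
      obtain ⟨b5, hb5, b6, hb6, e56⟩ := Finset.mem_sub.1 hy2
      obtain ⟨x0, hx0, y0, hy0, e0⟩ := Finset.mem_add.1 (hc₀ (Finset.mem_image_of_mem _ hb))
      obtain ⟨b7, hb7, b8, hb8, e78⟩ := Finset.mem_sub.1 hy0
      have hZm : (b3 + b6 + b7) - (b4 + b5 + b8) ∈ 3 • B - 3 • B := by
        have h3 : ∀ u v w : G, u ∈ B → v ∈ B → w ∈ B → u + v + w ∈ 3 • B := by
          intro u v w hu hv hw
          have : (3 : ℕ) • B = B + B + B := by
            rw [show (3 : ℕ) = 1 + 1 + 1 from rfl, add_nsmul, add_nsmul, one_nsmul]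
          rw [this]
          exact Finset.add_mem_add (Finset.add_mem_add hu hv) hw
        exact Finset.sub_mem_sub (h3 _ _ _ hb3 hb6 hb7) (h3 _ _ _ hb4 hb5 hb8)
      obtain ⟨z, hz, y, hy, ez⟩ := Finset.mem_add.1 (hZcov hZm)
      refine Finset.mem_add.2 ⟨x0 + J • x' + (x1 - x2) + z, ?_, y, hy, ?_⟩
      · exact Finset.add_mem_add (Finset.add_mem_add (Finset.add_mem_add hx0
          (Finset.mem_image_of_mem _ hx')) (Finset.sub_mem_sub hx1 hx2)) hz
      · have hl' : l • b = (l % J) • b + J • ((l / J) • b) := by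
          rw [smul_smul, ← add_smul, Nat.mod_add_div]
        rw [hl', ← e0, ← e', ← e12, smul_add, smul_sub, ← e1, ← e2, ← e34, ← e56, ← e78]
        have : y = (b3 + b6 + b7) - (b4 + b5 + b8) - z := by rw [← ez]; abel
        rw [this]
        abel

/-- the sums with all dilates grow slowly -/
theorem dig_card {K : ℝ} {J : ℕ} {B : Finset G} (hB : B.Nonempty) (h : LD K J B) (hJ : 1 ≤ J)
    (m l : ℕ) (hl : l < J ^ m) : ((B + nd l B).card : ℝ) ≤ K ^ (10 * m + 3) * B.card := by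
  have hK1 : 1 ≤ K := one_le_of_LD hB h
  have hK0 : 0 ≤ K := by linarith
  have hBB : ((B + B).card : ℝ) ≤ K * B.card := by
    have := h 1 hJ
    rwa [nd_one'] at this
  obtain ⟨X, hX, hc⟩ := dig hB h hJ m l hl
  have h1 : B + nd l B ⊆ X + (2 • B - 1 • B) := by
    intro y hy
    obtain ⟨b, hb, z, hz, rfl⟩ := Finset.mem_add.1 hy
    obtain ⟨x, hx, d, hd, rfl⟩ := Finset.mem_add.1 (hc hz)
    obtain ⟨b1, hb1, b2, hb2, rfl⟩ := Finset.mem_sub.1 hd
    refine Finset.mem_add.2 ⟨x, hx, b + b1 - b2, ?_, by abel⟩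
    rw [one_nsmul, two_nsmul]
    exact Finset.sub_mem_sub (Finset.add_mem_add hb hb1) hb2
  have h2 := plu hB hBB 2 1
  have h3 : ((B + nd l B).card : ℝ) ≤ X.card * (2 • B - 1 • B).card := by
    exact_mod_cast (Finset.card_le_card h1).trans Finset.card_add_le
  calc ((B + nd l B).card : ℝ) ≤ X.card * (2 • B - 1 • B).card := h3
    _ ≤ K ^ (10 * m) * (K ^ (2 + 1) * B.card) := by gcongr
    _ = K ^ (10 * m + 3) * B.card := by ring

end Pool.Agent.W5h6.LocDil
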