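import Pool.Agent.W5h6.LocalDil.Slab
import Pool.Agent.TH414.UD.Gen

/-!
# Local sums of dilates: the structure theorem
-/

set_option autoImplicit false

namespace Pool.Agent.W5h6.LocDil

open Finset Pool.Agent.TH414.Dil
open scoped Pointwise Classical ComplexConjugate

variable {Γ : Type*} [AddCommGroup Γ]

/-- few of the first multipliers are bad -/
theorem bad_local (U : AddSubgroup Γ) (A : Finset Γ) (N Q : ℕ) (hG : LST Q U A) :
    Q * ((range N).filter (fun n => ¬ Good U A n)).card ≤ (bar U A).card ^ 4 * (N + Q) := by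
  have hT : (bar U A ×ˢ (bar U A ×ˢ (bar U A ×ˢ bar U A))).card = (bar U A).card ^ 4 := by
    rw [card_product, card_product, card_product]; ring
  rw [← hT]
  refine le_trans (Nat.mul_le_mul_left _ ?_) (double_count (range N)
    (bar U A ×ˢ (bar U A ×ˢ (bar U A ×ˢ bar U A)))
    (fun n t => CP n t.1 t.2.1 t.2.2.1 t.2.2.2) Q (N + Q) ?_)
  · rw [Finset.card_filter]
    refine Finset.sum_le_sum fun n _ => ?_
    by_cases h : Good U A n
    · rw [if_neg (not_not.2 h)]
      exact Nat.zero_le _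
    · rw [if_pos h]
      simp only [Good, not_forall] at h
      obtain ⟨α, hα, β, hβ, γ, hγ, δ, hδ, he, hne⟩ := h
      refine Finset.card_pos.2 ⟨(α, β, γ, δ), ?_⟩
      rw [mem_filter]
      exact ⟨mem_product.2 ⟨hα, mem_product.2 ⟨hβ, mem_product.2 ⟨hγ, hδ⟩⟩⟩, he, hne⟩
  · intro t ht
    rw [mem_product, mem_product, mem_product] at ht
    obtain ⟨α, β, γ, δ⟩ := t
    simp only at ht ⊢
    rcases Nat.eq_zero_or_pos Q with hQ0 | hQ0
    · subst hQ0; simp
    have hcard : ((range N).filter (fun n => CP n α β γ δ)).card ≤ (range (N / Q + 1)).card := by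
      refine Finset.card_le_card_of_injOn (fun n => n / Q) ?_ ?_
      · intro n hn
        have hn' := (mem_filter.1 (Finset.mem_coe.1 hn)).1
        rw [mem_range] at hn'
        exact Finset.mem_coe.2 (mem_range.2 (Nat.lt_succ_of_le (Nat.div_le_div_right hn'.le)))
      · intro n hn m hm he
        have hn' := (mem_filter.1 (Finset.mem_coe.1 hn)).2
        have hm' := (mem_filter.1 (Finset.mem_coe.1 hm)).2
        simp only at he
        by_cases h0 : β - δ = 0
        · exfalso
          have hβδ : β = δ := sub_eq_zero.1 h0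
          subst hβδ
          exact hn'.2 ⟨(add_right_cancel hn'.1).symm, rfl⟩
        · have e : n • (β - δ) = m • (β - δ) := by
            have e1 : n • (β - δ) = γ - α := by
              rw [nsmul_sub, sub_eq_sub_iff_add_eq_add, add_comm, hn'.1]
            have e2 : m • (β - δ) = γ - α := by
              rw [nsmul_sub, sub_eq_sub_iff_add_eq_add, add_comm, hm'.1]
            rw [e1, e2]
          rcases hG β ht.2.1 δ ht.2.2.2 h0 with h2 | h2
          · have hinj := injective_nsmul_iff_not_isOfFinAddOrder.2 (addOrderOf_eq_zero_iff.1 h2)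
            exact hinj e
          · have h3 : n ≡ m [MOD addOrderOf (β - δ)] := nsmul_eq_nsmul_iff_modEq.1 e
            have h5 := Nat.div_add_mod n Q
            have h6 := Nat.div_add_mod m Q
            have h7 := Nat.mod_lt n hQ0
            have h8 := Nat.mod_lt m hQ0
            rw [he] at h5
            -- `|n - m| < Q ≤ order`
            rcases le_total n m with hle | hle
            · have h9 : addOrderOf (β - δ) ∣ m - n := (Nat.modEq_iff_dvd' hle).1 h3
              by_contra hne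
              have h10 : 0 < m - n := by omega
              have h11 := Nat.le_of_dvd h10 h9
              omega
            · have h9 : addOrderOf (β - δ) ∣ n - m := (Nat.modEq_iff_dvd' hle).1 h3.symm
              by_contra hne
              have h10 : 0 < n - m := by omega
              have h11 := Nat.le_of_dvd h10 h9
              omega
    rw [card_range] at hcard
    calc Q * _ ≤ Q * (N / Q + 1) := Nat.mul_le_mul_left _ hcard
      _ = Q * (N / Q) + Q := by ring
      _ ≤ N + Q := Nat.add_le_add_right (Nat.mul_div_le N Q) Q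

/-- a set in one coset bounds the number of cosets -/
theorem few_cosets' (V : AddSubgroup Γ) (A B : Finset Γ) (hBA : B ⊆ A)
    (hB : ∀ b ∈ B, ∀ b' ∈ B, b - b' ∈ V) : (bar V A).card * B.card ≤ (A + A).card := by
  have hs : ∀ y : Γ ⧸ V, ∃ b : Γ, y ∈ bar V A → b ∈ A ∧ (b : Γ ⧸ V) = y := by
    intro y
    by_cases hy : y ∈ bar V A
    · obtain ⟨b, hb, hby⟩ := exists_rep hy
      exact ⟨b, fun _ => ⟨hb, hby⟩⟩
    · exact ⟨0, fun h => absurd h hy⟩
  choose s hs using hs
  rw [← Finset.card_product]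
  refine Finset.card_le_card_of_injOn (fun t => s t.1 + t.2) ?_ ?_
  · rintro ⟨y, c⟩ ht
    rw [Finset.mem_coe, mem_product] at ht
    exact Finset.mem_coe.2 (Finset.add_mem_add (hs y ht.1).1 (hBA ht.2))
  · rintro ⟨y, c⟩ ht ⟨y', c'⟩ ht' heq
    rw [Finset.mem_coe, mem_product] at ht ht'
    simp only at heq ht ht'
    have h5 : (c : Γ ⧸ V) = (c' : Γ ⧸ V) := by
      rw [← sub_eq_zero, ← QuotientAddGroup.mk_sub]
      exact (QuotientAddGroup.eq_zero_iff _).2 (hB c ht.2 c' ht'.2)
    have h6 : y = y' := by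
      rw [← (hs y ht.1).2, ← (hs y' ht'.1).2]
      have h7 : ((s y + c : Γ) : Γ ⧸ V) = ((s y' + c' : Γ) : Γ ⧸ V) := by rw [heq]
      rw [QuotientAddGroup.mk_add, QuotientAddGroup.mk_add, h5] at h7
      exact add_right_cancel h7
    subst h6
    have : c = c' := add_left_cancel heq
    rw [this]

/-- chord and angle -/
theorem arg_le (z : ℂ) (hz : ‖z‖ = 1) : |Complex.arg z| ≤ Real.pi / 2 * ‖1 - z‖ := by
  have h1 : z = Complex.exp (Complex.arg z * Complex.I) := by
    have h := Complex.norm_mul_exp_arg_mul_I z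
    rw [hz] at h
    simpa using h.symm
  set θ := Complex.arg z with hθ
  have h2 : ‖1 - z‖ = 2 * |Real.sin (θ / 2)| := by
    have h3 : ‖1 - z‖ ^ 2 = (2 * |Real.sin (θ / 2)|) ^ 2 := by
      rw [mul_pow, sq_abs, ← Complex.normSq_eq_norm_sq]
      have h4 : z.re = Real.cos θ := by
        rw [h1]; exact Complex.exp_ofReal_mul_I_re θ
      have h5 : z.im = Real.sin θ := by
        rw [h1]; exact Complex.exp_ofReal_mul_I_im θ
      rw [Complex.normSq_apply]
      simp only [Complex.sub_re, Complex.sub_im, Complex.one_re, Complex.one_im]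
      rw [h4, h5]
      have h6 : Real.sin (θ / 2) ^ 2 = 1 / 2 - Real.cos θ / 2 := by
        rw [Real.sin_sq_eq_half_sub]; ring_nf
      have h7 := Real.sin_sq_add_cos_sq θ
      rw [h6]
      nlinarith
    have h8 : 0 ≤ ‖1 - z‖ := norm_nonneg _
    have h9 : 0 ≤ 2 * |Real.sin (θ / 2)| := by positivity
    exact (pow_left_inj₀ h8 h9 (by norm_num)).1 h3
  have hmem := Complex.abs_arg_le_pi z
  rw [← hθ] at hmem
  have h3 : 2 / Real.pi * |θ / 2| ≤ |Real.sin (θ / 2)| := by
    have hpi := Real.pi_pos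
    have h4 : |θ / 2| ≤ Real.pi / 2 := by
      rw [abs_div, abs_two]; linarith
    rcases le_total 0 θ with h | h
    · have h5 : |θ / 2| = θ / 2 := abs_of_nonneg (by linarith)
      rw [h5] at h4 ⊢
      have h6 := Real.mul_le_sin (x := θ / 2) (by linarith) h4
      exact h6.trans (le_abs_self _)
    · have h5 : |θ / 2| = -(θ / 2) := abs_of_nonpos (by linarith)
      rw [h5] at h4 ⊢
      have h6 := Real.mul_le_sin (x := -(θ / 2)) (by linarith) h4
      rw [Real.sin_neg] at h6
      exact h6.trans (neg_le_abs _)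
  rw [h2]
  have hpi := Real.pi_pos
  have h4 : |θ / 2| = |θ| / 2 := by rw [abs_div, abs_two]
  rw [h4] at h3
  have h5 : Real.pi / 2 * (2 * (2 / Real.pi * (|θ| / 2))) = |θ| := by
    field_simp
  calc |θ| = Real.pi / 2 * (2 * (2 / Real.pi * (|θ| / 2))) := h5.symm
    _ ≤ Real.pi / 2 * (2 * |Real.sin (θ / 2)|) := by
        apply mul_le_mul_of_nonneg_left _ (by positivity)
        linarith

/-- the descent step -/
theorem step_local (A : Finset Γ) (hA : A.Nonempty) {K : ℝ} {J : ℕ} (h : LD K J A)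
    (hJ : (2 * K) ^ 304 ≤ (J : ℝ)) (Q : ℕ) (hQ : 2 ^ 16 * K ^ 16 < Q) (hQJ : Q ≤ J + 1)
    (hΓ : ∀ p : ℕ, p.Prime → p < Q → ∀ x : Γ, p • x = 0 → x = 0)
    (U : AddSubgroup Γ) [Finite U] (hc : ((bar U A).card : ℝ) ≤ K)
    (hU : 2 * K * A.card < (Nat.card U : ℝ)) :
    ∃ V : AddSubgroup Γ, V ≤ U ∧ V ≠ U ∧ ((bar V A).card : ℝ) ≤ K := by
  have hK : 1 ≤ K := one_le_of_LD hA h
  have hA0 : (0 : ℝ) < A.card := by exact_mod_cast hA.card_pos
  have hK0 : 0 < K := by linarith
  have hQ0 : (0 : ℝ) < Q := lt_trans (by positivity) hQ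
  set N : ℕ := J + 1 with hN
  have hNJ : (N : ℝ) = J + 1 := by rw [hN]; push_cast; ring
  have hN0 : (0 : ℝ) < N := by rw [hNJ]; positivity
  have hQN : (Q : ℝ) ≤ N := by exact_mod_cast hQJ
  set η : ℝ := 16 * K / N with hη
  have hη0 : 0 < η := by positivity
  -- a character on a slab of which `A` is concentrated
  obtain ⟨χ, hχ, hconc⟩ : ∃ χ : AddChar U ℂ, χ ≠ 0 ∧ 1 / (4 * K) * (A.card : ℝ) ^ 2 <
      (((rr U A).filter (fun q => ‖1 - cext U χ (q.1 - q.2)‖ < η)).card : ℝ) := by
    by_contra hcon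
    push Not at hcon
    have h1 := energy_local (U := U) A N hη0 (δ := 1 / (4 * K)) (by positivity) hcon
    have hbad := bad_local U A N Q (LST_of_prime Q hΓ U A)
    set good := (range N).filter (fun n => Good U A n) with hgood
    have h2 : ((good.card : ℕ) : ℝ) * ((A.card : ℝ) ^ 3 / K) ≤ ∑ n ∈ range N, (NU U A n : ℝ) := by
      calc ((good.card : ℕ) : ℝ) * ((A.card : ℝ) ^ 3 / K)
          = ∑ n ∈ good, (A.card : ℝ) ^ 3 / K := by rw [Finset.sum_const, nsmul_eq_mul]
        _ ≤ ∑ n ∈ good, (NU U A n : ℝ) := by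
            refine Finset.sum_le_sum fun n hn => ?_
            have hnJ : n ≤ J := by
              have := mem_range.1 (Finset.mem_filter.1 hn).1
              omega
            have h3 := NU_good U A n (Finset.mem_filter.1 hn).2
            have h4 : (A.card : ℝ) ^ 4 ≤ (A + nd n A).card * (NU U A n : ℝ) := by
              exact_mod_cast h3
            have h5 : (A.card : ℝ) ^ 4 ≤ (K * A.card) * (NU U A n : ℝ) :=
              h4.trans (mul_le_mul_of_nonneg_right (h n hnJ) (Nat.cast_nonneg _))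
            rw [div_le_iff₀ hK0]
            have h6 : (A.card : ℝ) * (A.card : ℝ) ^ 3 ≤ A.card * ((NU U A n : ℝ) * K) := by
              nlinarith [h5]
            exact le_of_mul_le_mul_left h6 hA0
        _ ≤ ∑ n ∈ range N, (NU U A n : ℝ) :=
            Finset.sum_le_sum_of_subset_of_nonneg (Finset.filter_subset _ _)
              fun _ _ _ => Nat.cast_nonneg _
    have h3 : (15 / 16 : ℝ) * N ≤ good.card := by
      have h4 : good.card + ((range N).filter (fun n => ¬ Good U A n)).card = N := by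
        rw [hgood, Finset.card_filter_add_card_filter_not]; simp
      have h5 : (good.card : ℝ) + (((range N).filter (fun n => ¬ Good U A n)).card : ℝ) = N := by
        exact_mod_cast h4
      have h6 : (Q : ℝ) * (((range N).filter (fun n => ¬ Good U A n)).card : ℝ) ≤
          ((bar U A).card : ℝ) ^ 4 * (N + Q) := by exact_mod_cast hbad
      have h7 : ((bar U A).card : ℝ) ^ 4 ≤ K ^ 4 :=
        pow_le_pow_left₀ (Nat.cast_nonneg _) hc 4
      have h7' : 32 * K ^ 4 ≤ Q := by
        have e1 : (K : ℝ) ^ 4 ≤ K ^ 16 := pow_le_pow_right₀ hK (by norm_num)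
        nlinarith [pow_pos hK0 16]
      have h8 : (Q : ℝ) * (((range N).filter (fun n => ¬ Good U A n)).card : ℝ) ≤
          Q * (N / 16) := by
        calc _ ≤ _ := h6
          _ ≤ K ^ 4 * (N + N) := by
              apply mul_le_mul h7 (by linarith) (by positivity) (by positivity)
          _ = (32 * K ^ 4) * (N / 16) := by ring
          _ ≤ Q * (N / 16) := mul_le_mul_of_nonneg_right h7' (by positivity)
      have h9 := le_of_mul_le_mul_left h8 hQ0
      linarith
    have hUc : (0 : ℝ) < Nat.card U := by exact_mod_cast Nat.card_pos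
    have h4 : (15 / 16 : ℝ) * N * ((A.card : ℝ) ^ 3 / K) ≤ ∑ n ∈ range N, (NU U A n : ℝ) :=
      le_trans (mul_le_mul_of_nonneg_right h3 (by positivity)) h2
    have h5 := le_trans (mul_le_mul_of_nonneg_left h4 hUc.le) h1
    have e3 : 1 / (4 * K) * N + 2 / η = 3 / 8 * (N / K) := by
      rw [hη]
      field_simp
      ring
    rw [e3] at h5
    have e4 : (Nat.card U : ℝ) * ((15 / 16 : ℝ) * N * ((A.card : ℝ) ^ 3 / K)) =
        ((N : ℝ) * (A.card : ℝ) ^ 3 / K) * (15 / 16 * Nat.card U) := by ring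
    have e5 : (N : ℝ) * (A.card : ℝ) ^ 4 + 3 / 8 * (N / K) * (A.card : ℝ) ^ 2 *
        (Nat.card U * A.card) =
        ((N : ℝ) * (A.card : ℝ) ^ 3 / K) * (K * A.card + 3 / 8 * Nat.card U) := by
      field_simp
    rw [e4, e5] at h5
    have h6 := le_of_mul_le_mul_left h5 (by positivity)
    nlinarith
  -- a large part of `A` on the slab
  obtain ⟨a, ha, haB⟩ : ∃ a ∈ A, 1 / (4 * K) * (A.card : ℝ) <
      ((A.filter (fun b => b - a ∈ U ∧ ‖1 - cext U χ (b - a)‖ < η)).card : ℝ) := by
    by_contra hcon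
    push Not at hcon
    have h1 : ((rr U A).filter (fun q => ‖1 - cext U χ (q.1 - q.2)‖ < η)).card =
        ∑ a ∈ A, (A.filter (fun b => b - a ∈ U ∧ ‖1 - cext U χ (b - a)‖ < η)).card := by
      rw [Finset.card_eq_sum_card_fiberwise (f := fun p : Γ × Γ => p.2) (t := A)]
      · refine Finset.sum_congr rfl fun a ha => ?_
        refine Finset.card_bij' (fun p _ => p.1) (fun c _ => (c, a)) ?_ ?_ ?_ ?_
        · rintro ⟨x, y⟩ h
          simp only [rr, mem_filter, mem_product] at h ⊢
          obtain ⟨⟨⟨⟨h1, h2⟩, h3⟩, h4⟩, h5⟩ := h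
          exact ⟨h1, h5 ▸ h3, h5 ▸ h4⟩
        · intro c h
          simp only [rr, mem_filter, mem_product] at h ⊢
          exact ⟨⟨⟨⟨h.1, ha⟩, h.2.1⟩, h.2.2⟩, trivial⟩
        · rintro ⟨x, y⟩ h
          simp only [rr, mem_filter, mem_product] at h
          simp only [h.2]
        · intro c h
          rfl
      · rintro ⟨x, y⟩ h
        simp only [rr, coe_filter, mem_filter, mem_product, Set.mem_ofPred_eq] at h
        exact h.1.1.2
    have h2 : (((rr U A).filter (fun q => ‖1 - cext U χ (q.1 - q.2)‖ < η)).card : ℝ) ≤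
        ∑ a ∈ A, 1 / (4 * K) * (A.card : ℝ) := by
      rw [h1]
      push_cast
      exact Finset.sum_le_sum hcon
    rw [Finset.sum_const, nsmul_eq_mul] at h2
    nlinarith
  set B := A.filter (fun b => b - a ∈ U ∧ ‖1 - cext U χ (b - a)‖ < η) with hB
  have hBA : B ⊆ A := Finset.filter_subset _ _
  have hB0 : (0 : ℝ) < B.card := lt_trans (by positivity) haB
  have hBne : B.Nonempty := by
    rw [← Finset.card_pos]; exact_mod_cast hB0
  have hAB : (A.card : ℝ) ≤ 4 * K * B.card := by
    have h1 : (A.card : ℝ) = 4 * K * (1 / (4 * K) * A.card) := by field_simp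
    rw [h1]
    exact mul_le_mul_of_nonneg_left haB.le (by positivity)
  -- the number of dilates for `B`
  set J' : ℕ := ⌈(2 * (4 * K ^ 2)) ^ 100⌉₊ with hJ'
  have hJ'1 : (2 * (4 * K ^ 2)) ^ 100 ≤ (J' : ℝ) := Nat.le_ceil _
  have hJ'2 : (J' : ℝ) + 1 < 2 * (2 * (4 * K ^ 2)) ^ 100 := by
    have h1 := Nat.ceil_lt_add_one (a := (2 * (4 * K ^ 2)) ^ 100) (by positivity)
    have h2 : (8 : ℝ) ≤ 2 * (4 * K ^ 2) := by nlinarith
    have h3 : (8 : ℝ) ^ 100 ≤ (2 * (4 * K ^ 2)) ^ 100 := pow_le_pow_left₀ (by norm_num) h2 _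
    have h4 : (2 : ℝ) < 8 ^ 100 := by norm_num
    linarith
  have hbig : 8 * K * ((J' : ℝ) + 1) < N := by
    have h1 : 8 * K * (2 * (2 * (4 * K ^ 2)) ^ 100) ≤ (2 * K) ^ 304 := by
      have e1 : 8 * K * (2 * (2 * (4 * K ^ 2)) ^ 100) = 16 * K * (2 * (4 * K ^ 2)) ^ 100 := by ring
      have e2 : (2 * K) ^ 304 = (2 * K) ^ 4 * ((2 * K) ^ 3) ^ 100 := by
        rw [← pow_mul, ← pow_add]
      have e3 : 16 * K ≤ (2 * K) ^ 4 := by
        have : K ^ 1 ≤ K ^ 4 := pow_le_pow_right₀ hK (by norm_num)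
        nlinarith
      have e4 : 2 * (4 * K ^ 2) ≤ (2 * K) ^ 3 := by
        have : K ^ 2 ≤ K ^ 3 := pow_le_pow_right₀ hK (by norm_num)
        nlinarith
      rw [e1, e2]
      exact mul_le_mul e3 (pow_le_pow_left₀ (by positivity) e4 _) (by positivity) (by positivity)
    have h2 : 8 * K * ((J' : ℝ) + 1) < 8 * K * (2 * (2 * (4 * K ^ 2)) ^ 100) :=
      mul_lt_mul_of_pos_left hJ'2 (by positivity)
    rw [hNJ]
    linarith
  have hJ'J : J' ≤ J := by
    have h1 : (J' : ℝ) ≤ J := by
      have h2 : ((J' : ℝ) + 1) * 1 ≤ ((J' : ℝ) + 1) * (8 * K) :=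
        mul_le_mul_of_nonneg_left (by linarith) (by positivity)
      linarith
    exact_mod_cast h1
  have hLB : LD (4 * K ^ 2) J' B := by
    intro n hn
    have h1 : ((B + nd n B).card : ℝ) ≤ (A + nd n A).card := by
      exact_mod_cast Finset.card_le_card (Finset.add_subset_add hBA (Finset.image_subset_image hBA))
    calc ((B + nd n B).card : ℝ) ≤ _ := h1
      _ ≤ K * A.card := h n (hn.trans hJ'J)
      _ ≤ K * (4 * K * B.card) := mul_le_mul_of_nonneg_left hAB hK0.le
      _ = _ := by ring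
  obtain ⟨B', hB'B, hB'ne, hB'c, hB'V⟩ := slab U χ a B hBne hLB hJ'1 (Real.pi / 2 * η) (by
      intro b hb
      obtain ⟨-, hbU, hbη⟩ := Finset.mem_filter.1 hb
      refine ⟨hbU, (arg_le _ (norm_cext χ hbU)).trans ?_⟩
      exact mul_le_mul_of_nonneg_left hbη.le (by positivity)) (by
      have hpi := Real.pi_pos
      have h1 : ((J' : ℝ) + 1) * (Real.pi / 2 * η) = Real.pi * ((8 * K * ((J' : ℝ) + 1)) / N) := by
        rw [hη]; field_simp; ring
      rw [h1]
      have h2 : (8 * K * ((J' : ℝ) + 1)) / N < 1 := by rw [div_lt_one hN0]; exact hbig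
      nlinarith)
  refine ⟨cker χ, cker_le χ, cker_ne χ hχ, ?_⟩
  have hJ1 : 1 ≤ J := by
    have h1 : (1 : ℝ) ≤ J := by
      refine le_trans ?_ hJ
      exact one_le_pow₀ (by linarith)
    exact_mod_cast h1
  have hd1 := h 1 hJ1
  rw [nd_one'] at hd1
  have h1 : ((bar (cker χ) A).card : ℝ) * B'.card ≤ K * A.card := by
    refine le_trans ?_ hd1
    exact_mod_cast few_cosets' (cker χ) A B' (hB'B.trans hBA) hB'V
  have hAB' : (A.card : ℝ) ≤ 16 * K ^ 3 * B'.card := by
    calc (A.card : ℝ) ≤ 4 * K * B.card := hAB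
      _ ≤ 4 * K * (4 * K ^ 2 * B'.card) := mul_le_mul_of_nonneg_left hB'c (by positivity)
      _ = _ := by ring
  have hB'0 : (0 : ℝ) < B'.card := by exact_mod_cast hB'ne.card_pos
  have h2 : ((bar (cker χ) A).card : ℝ) ≤ 16 * K ^ 4 := by
    have h3 : ((bar (cker χ) A).card : ℝ) * B'.card ≤ 16 * K ^ 4 * B'.card := by
      calc _ ≤ K * A.card := h1
        _ ≤ K * (16 * K ^ 3 * B'.card) := mul_le_mul_of_nonneg_left hAB' hK0.le
        _ = _ := by ring
    exact le_of_mul_le_mul_right h3 hB'0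
  have : Finite (cker χ) := Finite.of_injective _ (AddSubgroup.inclusion_injective (cker_le χ))
  refine rigid_local (cker χ) A hA h Q (LST_of_prime Q hΓ _ A) ?_ hQJ
  have h6 : ((bar (cker χ) A).card : ℝ) ^ 4 < Q := by
    calc _ ≤ (16 * K ^ 4) ^ 4 := pow_le_pow_left₀ (Nat.cast_nonneg _) h2 4
      _ = 2 ^ 16 * K ^ 16 := by ring
      _ < _ := hQ
  exact_mod_cast h6

/-- the structure theorem for groups without small torsion -/
theorem structure_local (A : Finset Γ) (hA : A.Nonempty) {K : ℝ} {J : ℕ} (h : LD K J A)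
    (hJ : (2 * K) ^ 304 ≤ (J : ℝ))
    (hΓ : ∀ p : ℕ, p.Prime → (p : ℝ) ≤ 2 ^ 16 * K ^ 16 → ∀ x : Γ, p • x = 0 → x = 0) :
    ∃ U : AddSubgroup Γ, Finite U ∧ ((bar U A).card : ℝ) ≤ K ∧
      (Nat.card U : ℝ) ≤ 2 * K * A.card := by
  have hK : 1 ≤ K := one_le_of_LD hA h
  set Q := ⌊2 ^ 16 * K ^ 16⌋₊ + 1 with hQ
  have hQ' : 2 ^ 16 * K ^ 16 < Q := by rw [hQ]; push_cast; exact Nat.lt_floor_add_one _
  have hΓ' : ∀ p : ℕ, p.Prime → p < Q → ∀ x : Γ, p • x = 0 → x = 0 := by
    intro p hp hpQ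
    refine hΓ p hp ?_
    have h1 : p ≤ ⌊2 ^ 16 * K ^ 16⌋₊ := Nat.lt_succ_iff.1 hpQ
    exact (Nat.le_floor_iff (by positivity)).1 h1
  have hQJ : Q ≤ J + 1 := by
    have h1 : (⌊2 ^ 16 * K ^ 16⌋₊ : ℝ) ≤ J := by
      refine (Nat.floor_le (by positivity)).trans (le_trans ?_ hJ)
      rw [← mul_pow]
      exact pow_le_pow_right₀ (by linarith) (by norm_num)
    have h2 : ⌊2 ^ 16 * K ^ 16⌋₊ ≤ J := by exact_mod_cast h1
    omega
  have key : ∀ k : ℕ, ∀ U : AddSubgroup Γ, Finite U → Nat.card U = k →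
      ((bar U A).card : ℝ) ≤ K → ∃ U : AddSubgroup Γ, Finite U ∧ ((bar U A).card : ℝ) ≤ K ∧
      (Nat.card U : ℝ) ≤ 2 * K * A.card := by
    intro k
    induction k using Nat.strong_induction_on with
    | _ k ih =>
      intro U hfin hUk hc
      by_cases h' : (Nat.card U : ℝ) ≤ 2 * K * A.card
      · exact ⟨U, hfin, hc, h'⟩
      · push Not at h'
        obtain ⟨V, hVU, hVne, hVc⟩ := step_local A hA h hJ Q hQ' hQJ hΓ' U hc h'
        have hVfin : Finite V := Finite.of_injective _ (AddSubgroup.inclusion_injective hVU)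
        refine ih (Nat.card V) ?_ V hVfin rfl hVc
        rw [← hUk]
        have hlt : (V : Set Γ) ⊂ (U : Set Γ) := by
          rw [Set.ssubset_iff_subset_ne]
          exact ⟨hVU, fun h => hVne (SetLike.coe_injective h)⟩
        have := Set.ncard_lt_ncard hlt (Set.toFinite (U : Set Γ))
        rw [← Nat.card_coe_set_eq, ← Nat.card_coe_set_eq] at this
        exact this
  have hJ100 : (2 * K) ^ 100 ≤ (J : ℝ) :=
    le_trans (pow_le_pow_right₀ (by linarith) (by norm_num)) hJ
  obtain ⟨U, hfin, hc⟩ := start_local A hA h hJ100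
  exact key _ U hfin rfl hc

end Pool.Agent.W5h6.LocDil
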