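import Pool.Agent.W5h6.LocalDil.Start
import Mathlib.Analysis.SpecialFunctions.Complex.Arg
import Mathlib.Analysis.SpecialFunctions.Trigonometric.Bounds

/-!
# Local sums of dilates: concentration on a slab of a character

If the values of a character of `U` on a set `B` are in a short arc, then a large part of `B` is in a
coset of the kernel: the angles define a lift of `B` to the product with `ℝ`.
-/

set_option autoImplicit false

namespace Pool.Agent.W5h6.LocDil

open Finset Pool.Agent.TH414.Dil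
open scoped Pointwise Classical ComplexConjugate

variable {Γ : Type*} [AddCommGroup Γ]

theorem norm_cext {U : AddSubgroup Γ} [Finite U] (χ : AddChar U ℂ) {x : Γ} (hx : x ∈ U) :
    ‖cext U χ x‖ = 1 := by
  rw [cext_mem χ hx]
  exact AddChar.norm_apply χ _

theorem cext_exp {U : AddSubgroup Γ} [Finite U] (χ : AddChar U ℂ) {x : Γ} (hx : x ∈ U) :
    cext U χ x = Complex.exp (Complex.arg (cext U χ x) * Complex.I) := by
  have h := Complex.norm_mul_exp_arg_mul_I (cext U χ x)
  rw [norm_cext χ hx] at h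
  simpa using h.symm

theorem cext_add {U : AddSubgroup Γ} (χ : AddChar U ℂ) {x y : Γ} (hx : x ∈ U) (hy : y ∈ U) :
    cext U χ (x + y) = cext U χ x * cext U χ y := by
  rw [cext_mem χ hx, cext_mem χ hy, cext_mem χ (U.add_mem hx hy), ← AddChar.map_add_eq_mul]
  rfl

theorem cext_nsmul {U : AddSubgroup Γ} (χ : AddChar U ℂ) {x : Γ} (hx : x ∈ U) (n : ℕ) :
    cext U χ (n • x) = cext U χ x ^ n := by
  rw [cext_mem χ hx, cext_mem χ (U.nsmul_mem hx n), ← AddChar.map_nsmul_eq_pow]
  rfl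

/-- **concentration on a slab** -/
theorem slab (U : AddSubgroup Γ) [Finite U] (χ : AddChar U ℂ) (a : Γ) (B : Finset Γ)
    (hB : B.Nonempty) {K : ℝ} {J : ℕ} (h : LD K J B) (hJ : (2 * K) ^ 100 ≤ (J : ℝ)) (r : ℝ)
    (hr : ∀ b ∈ B, b - a ∈ U ∧ |Complex.arg (cext U χ (b - a))| ≤ r)
    (hr2 : ((J : ℝ) + 1) * r < Real.pi) :
    ∃ B' ⊆ B, B'.Nonempty ∧ (B.card : ℝ) ≤ K * B'.card ∧ ∀ b ∈ B', ∀ b' ∈ B', b - b' ∈ cker χ := by
  set t : Γ → ℝ := fun b => Complex.arg (cext U χ (b - a)) with ht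
  have hval : ((B.image t).card : ℝ) ≤ K := by
    refine few_values B hB h hJ t ?_
    intro n hn b₁ hb₁ b₂ hb₂ b₃ hb₃ b₄ hb₄ he
    have e1 : (b₁ - a) + n • (b₂ - a) = (b₃ - a) + n • (b₄ - a) := by
      rw [nsmul_sub, nsmul_sub]
      have : b₁ - a + (n • b₂ - n • a) = (b₁ + n • b₂) - a - n • a := by abel
      rw [this, he]; abel
    have e2 := congrArg (cext U χ) e1
    rw [cext_add χ (hr b₁ hb₁).1 (U.nsmul_mem (hr b₂ hb₂).1 n),
      cext_add χ (hr b₃ hb₃).1 (U.nsmul_mem (hr b₄ hb₄).1 n), cext_nsmul χ (hr b₂ hb₂).1,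
      cext_nsmul χ (hr b₄ hb₄).1, cext_exp χ (hr b₁ hb₁).1, cext_exp χ (hr b₂ hb₂).1,
      cext_exp χ (hr b₃ hb₃).1, cext_exp χ (hr b₄ hb₄).1, ← Complex.exp_nat_mul,
      ← Complex.exp_nat_mul, ← Complex.exp_add, ← Complex.exp_add,
      Complex.exp_eq_exp_iff_exists_int] at e2
    obtain ⟨k, hk⟩ := e2
    have e3 : (t b₁ + n * t b₂ : ℝ) = t b₃ + n * t b₄ + k * (2 * Real.pi) := by
      have e4 : (((t b₁ + n * t b₂ : ℝ)) : ℂ) * Complex.I =
          (((t b₃ + n * t b₄ + k * (2 * Real.pi) : ℝ)) : ℂ) * Complex.I := by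
        push_cast
        linear_combination hk
      exact_mod_cast mul_right_cancel₀ Complex.I_ne_zero e4
    have hb := fun b (hb : b ∈ B) => abs_le.1 (hr b hb).2
    have hn' : (n : ℝ) ≤ J := by exact_mod_cast hn
    have hr0 : 0 ≤ r := (abs_nonneg _).trans (hr b₁ hb₁).2
    have hn0 : (0 : ℝ) ≤ n := Nat.cast_nonneg n
    have f1 := hb b₁ hb₁
    have f2 := hb b₂ hb₂
    have f3 := hb b₃ hb₃
    have f4 := hb b₄ hb₄
    have g2 : (n : ℝ) * t b₂ ≤ n * r := mul_le_mul_of_nonneg_left f2.2 hn0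
    have g2' : -(n * r) ≤ (n : ℝ) * t b₂ := by
      have := mul_le_mul_of_nonneg_left f2.1 hn0
      linarith
    have g4 : (n : ℝ) * t b₄ ≤ n * r := mul_le_mul_of_nonneg_left f4.2 hn0
    have g4' : -(n * r) ≤ (n : ℝ) * t b₄ := by
      have := mul_le_mul_of_nonneg_left f4.1 hn0
      linarith
    have g5 : (n : ℝ) * r ≤ J * r := mul_le_mul_of_nonneg_right hn' hr0
    have hpi := Real.pi_pos
    have hk0 : k = 0 := by
      by_contra hk0
      rcases lt_or_gt_of_ne hk0 with hlt | hgt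
      · have h1 : k ≤ -1 := by omega
        have h2 : (k : ℝ) ≤ -1 := by exact_mod_cast h1
        have h3 : (k : ℝ) * (2 * Real.pi) ≤ -1 * (2 * Real.pi) :=
          mul_le_mul_of_nonneg_right h2 (by positivity)
        simp only [ht] at e3 f1 f3 g2' g4
        linarith [f1.1, f3.2]
      · have h1 : 1 ≤ k := by omega
        have h2 : (1 : ℝ) ≤ k := by exact_mod_cast h1
        have h3 : 1 * (2 * Real.pi) ≤ (k : ℝ) * (2 * Real.pi) :=
          mul_le_mul_of_nonneg_right h2 (by positivity)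
        simp only [ht] at e3 f1 f3 g2 g4'
        linarith [f1.2, f3.1]
    rw [hk0] at e3
    simpa using e3
  -- the largest fibre
  obtain ⟨y, hy, hyc⟩ : ∃ y ∈ B.image t, (B.card : ℝ) ≤ K * (B.filter (fun b => t b = y)).card := by
    by_contra hcon
    push Not at hcon
    have h1 : B.card = ∑ y ∈ B.image t, (B.filter (fun b => t b = y)).card :=
      Finset.card_eq_sum_card_fiberwise fun b hb => Finset.mem_coe.2 (Finset.mem_image_of_mem t hb)
    have h2 : ∑ y ∈ B.image t, K * ((B.filter (fun b => t b = y)).card : ℝ) <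
        ∑ y ∈ B.image t, (B.card : ℝ) := Finset.sum_lt_sum_of_nonempty (hB.image t) hcon
    rw [← Finset.mul_sum, ← Nat.cast_sum, ← h1, Finset.sum_const, nsmul_eq_mul] at h2
    have h3 : (0 : ℝ) < B.card := by exact_mod_cast hB.card_pos
    have h4 : ((B.image t).card : ℝ) * B.card ≤ K * B.card :=
      mul_le_mul_of_nonneg_right hval h3.le
    linarith
  refine ⟨B.filter (fun b => t b = y), Finset.filter_subset _ _, ?_, hyc, ?_⟩
  · obtain ⟨b, hb, e⟩ := Finset.mem_image.1 hy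
    exact ⟨b, Finset.mem_filter.2 ⟨hb, e⟩⟩
  · intro b hb b' hb'
    obtain ⟨h1, h2⟩ := Finset.mem_filter.1 hb
    obtain ⟨h1', h2'⟩ := Finset.mem_filter.1 hb'
    have hbU := (hr b h1).1
    have hbU' := (hr b' h1').1
    have hd : b - b' ∈ U := by
      have : b - b' = (b - a) - (b' - a) := by abel
      rw [this]; exact U.sub_mem hbU hbU'
    have e1 : cext U χ (b - a) = cext U χ (b' - a) := by
      rw [cext_exp χ hbU, cext_exp χ hbU']
      have : t b = t b' := h2.trans h2'.symm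
      simp only [ht] at this
      rw [this]
    have e2 : cext U χ (b - a) = cext U χ (b - b') * cext U χ (b' - a) := by
      rw [← cext_add χ hd hbU']
      congr 1; abel
    have e3 : cext U χ (b' - a) ≠ 0 := by
      intro h0
      have := norm_cext χ hbU'
      rw [h0, norm_zero] at this
      exact zero_ne_one this
    have e4 : cext U χ (b - b') = 1 := by
      rw [e1] at e2
      exact mul_right_cancel₀ e3 (by rw [one_mul]; exact e2.symm)
    exact ⟨hd, by rw [← cext_mem χ hd]; exact e4⟩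

/-- geometric sums on the unit circle -/
theorem geom_le (z : ℂ) (hz : ‖z‖ = 1) (N : ℕ) {η : ℝ} (hη : 0 < η) :
    ‖∑ n ∈ range N, z ^ n‖ ≤ (if ‖1 - z‖ < η then (N : ℝ) else 0) + 2 / η := by
  have h1 : ‖∑ n ∈ range N, z ^ n‖ ≤ N := by
    refine (norm_sum_le _ _).trans ?_
    simp [norm_pow, hz]
  have h2 : 0 < 2 / η := by positivity
  split_ifs with h
  · linarith
  · push Not at h
    have hne : z ≠ 1 := by
      rintro rfl
      simp at h
      linarith
    have hne' : ‖z - 1‖ = ‖1 - z‖ := norm_sub_rev _ _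
    rw [geom_sum_eq hne, norm_div, zero_add, hne']
    have h3 : ‖z ^ N - 1‖ ≤ 2 := by
      refine (norm_sub_le _ _).trans ?_
      rw [norm_pow, hz]; simp; norm_num
    exact div_le_div₀ (by norm_num) h3 hη h

/-- the energy inequality for the first dilates -/
theorem energy_local {U : AddSubgroup Γ} [Finite U] (A : Finset Γ) (N : ℕ) {η δ : ℝ} (hη : 0 < η)
    (hδ : 0 ≤ δ)
    (hconc : ∀ χ : AddChar U ℂ, χ ≠ 0 →
      (((rr U A).filter (fun q => ‖1 - cext U χ (q.1 - q.2)‖ < η)).card : ℝ) ≤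
        δ * (A.card : ℝ) ^ 2) :
    (Nat.card U : ℝ) * ∑ n ∈ range N, (NU U A n : ℝ) ≤
      N * (A.card : ℝ) ^ 4 + (δ * N + 2 / η) * (A.card : ℝ) ^ 2 * (Nat.card U * A.card) := by
  have hfin : Finite (AddChar U ℂ) := inferInstance
  have : Fintype (AddChar U ℂ) := Fintype.ofFinite _
  choose R hR0 hR using fun χ : AddChar U ℂ => rhat_nonneg A χ
  have hsum := sum_rhat (U := U) A
  simp only [hR] at hsum
  have hsum' : ∑ χ : AddChar U ℂ, R χ = (Nat.card U : ℝ) * A.card := by exact_mod_cast hsum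
  have hR00 : R 0 = (rr U A).card := by
    have := hR 0
    rw [rhat_zero] at this
    exact_mod_cast this.symm
  have h1 : ∀ n : ℕ, (Nat.card U : ℂ) * (NU U A n : ℂ) =
      ∑ χ : AddChar U ℂ, (R χ : ℂ) * ∑ q ∈ rr U A, (cext U χ (q.1 - q.2)) ^ n := by
    intro n
    simp only [← hR]
    simp only [NU, rhat]
    rw [Finset.card_filter]
    push_cast
    rw [Finset.mul_sum]
    simp only [Finset.sum_mul_sum]
    rw [Finset.sum_comm, Finset.sum_product]
    refine Finset.sum_congr rfl fun p hp => ?_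
    rw [Finset.sum_comm]
    refine Finset.sum_congr rfl fun q hq => ?_
    simp only [rr, mem_filter] at hp hq
    have h2 : p.1 - p.2 + n • (q.1 - q.2) ∈ U := U.add_mem hp.2 (U.nsmul_mem hq.2 n)
    have h3 := sum_cext (U := U) _ h2
    have h4 : ∀ χ : AddChar U ℂ, cext U χ (p.1 - p.2 + n • (q.1 - q.2)) =
        cext U χ (p.1 - p.2) * cext U χ (q.1 - q.2) ^ n := by
      intro χ
      rw [cext_add χ hp.2 (U.nsmul_mem hq.2 n), cext_nsmul χ hq.2]
    rw [← Finset.sum_congr rfl fun χ _ => h4 χ, h3]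
    split_ifs <;> simp
  have h2 : (((Nat.card U : ℝ) * ∑ n ∈ range N, (NU U A n : ℝ) : ℝ) : ℂ) =
      ∑ χ : AddChar U ℂ, (R χ : ℂ) * ∑ q ∈ rr U A, ∑ n ∈ range N, (cext U χ (q.1 - q.2)) ^ n := by
    push_cast
    rw [Finset.mul_sum, Finset.sum_congr rfl fun n _ => h1 n, Finset.sum_comm]
    refine Finset.sum_congr rfl fun χ _ => ?_
    rw [← Finset.mul_sum]
    congr 1
    rw [Finset.sum_comm]
  have h3 : (Nat.card U : ℝ) * ∑ n ∈ range N, (NU U A n : ℝ) ≤
      ∑ χ : AddChar U ℂ, R χ * ∑ q ∈ rr U A, ‖∑ n ∈ range N, (cext U χ (q.1 - q.2)) ^ n‖ := by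
    have e1 : (Nat.card U : ℝ) * ∑ n ∈ range N, (NU U A n : ℝ) =
        ‖(((Nat.card U : ℝ) * ∑ n ∈ range N, (NU U A n : ℝ) : ℝ) : ℂ)‖ := by
      rw [Complex.norm_real, Real.norm_of_nonneg (by positivity)]
    rw [e1, h2]
    refine (norm_sum_le _ _).trans (Finset.sum_le_sum fun χ _ => ?_)
    rw [norm_mul, Complex.norm_real, Real.norm_of_nonneg (hR0 χ)]
    exact mul_le_mul_of_nonneg_left (norm_sum_le _ _) (hR0 χ)
  have hrr : ((rr U A).card : ℝ) ≤ (A.card : ℝ) ^ 2 := by exact_mod_cast rr_card_le U A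
  have hη2 : 0 < 2 / η := by positivity
  have h4 : ∀ χ : AddChar U ℂ,
      R χ * ∑ q ∈ rr U A, ‖∑ n ∈ range N, (cext U χ (q.1 - q.2)) ^ n‖ ≤
      (if χ = 0 then N * (A.card : ℝ) ^ 4 else 0) +
        (δ * N + 2 / η) * (A.card : ℝ) ^ 2 * R χ := by
    intro χ
    have hbd : 0 ≤ (δ * N + 2 / η) * (A.card : ℝ) ^ 2 * R χ :=
      mul_nonneg (by positivity) (hR0 χ)
    by_cases hχ : χ = 0
    · rw [if_pos hχ]
      have h5 : ∑ q ∈ rr U A, ‖∑ n ∈ range N, (cext U χ (q.1 - q.2)) ^ n‖ ≤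
          (A.card : ℝ) ^ 2 * N := by
        calc ∑ q ∈ rr U A, ‖∑ n ∈ range N, (cext U χ (q.1 - q.2)) ^ n‖
            ≤ ∑ q ∈ rr U A, (N : ℝ) := by
              refine Finset.sum_le_sum fun q hq => ?_
              simp only [rr, mem_filter] at hq
              refine (norm_sum_le _ _).trans ?_
              simp [norm_pow, norm_cext χ hq.2]
          _ = (rr U A).card * N := by rw [Finset.sum_const, nsmul_eq_mul]
          _ ≤ _ := mul_le_mul_of_nonneg_right hrr (Nat.cast_nonneg N)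
      have h6 : R χ ≤ (A.card : ℝ) ^ 2 := by
        rw [hχ, hR00]; exact hrr
      calc R χ * ∑ q ∈ rr U A, ‖∑ n ∈ range N, (cext U χ (q.1 - q.2)) ^ n‖
          ≤ (A.card : ℝ) ^ 2 * ((A.card : ℝ) ^ 2 * N) :=
            mul_le_mul h6 h5 (Finset.sum_nonneg fun _ _ => norm_nonneg _) (by positivity)
        _ = N * (A.card : ℝ) ^ 4 := by ring
        _ ≤ _ := le_add_of_nonneg_right hbd
    · rw [if_neg hχ, zero_add, mul_comm]
      refine mul_le_mul_of_nonneg_right ?_ (hR0 χ)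
      calc ∑ q ∈ rr U A, ‖∑ n ∈ range N, (cext U χ (q.1 - q.2)) ^ n‖
          ≤ ∑ q ∈ rr U A, ((if ‖1 - cext U χ (q.1 - q.2)‖ < η then (N : ℝ) else 0) + 2 / η) := by
            refine Finset.sum_le_sum fun q hq => ?_
            simp only [rr, mem_filter] at hq
            exact geom_le _ (norm_cext χ hq.2) N hη
        _ = ((rr U A).filter (fun q => ‖1 - cext U χ (q.1 - q.2)‖ < η)).card * (N : ℝ) +
            (rr U A).card * (2 / η) := by
            rw [Finset.sum_add_distrib, ← Finset.sum_filter, Finset.sum_const, Finset.sum_const,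
              nsmul_eq_mul, nsmul_eq_mul]
        _ ≤ (δ * (A.card : ℝ) ^ 2) * N + (A.card : ℝ) ^ 2 * (2 / η) := by
            refine add_le_add (mul_le_mul_of_nonneg_right (hconc χ hχ) (Nat.cast_nonneg N))
              (mul_le_mul_of_nonneg_right hrr hη2.le)
        _ = _ := by ring
  refine h3.trans ((Finset.sum_le_sum fun χ _ => h4 χ).trans (le_of_eq ?_))
  rw [Finset.sum_add_distrib, Finset.sum_ite_eq' Finset.univ (0 : AddChar U ℂ),
    if_pos (Finset.mem_univ _), ← Finset.mul_sum, hsum']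

end Pool.Agent.W5h6.LocDil
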