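import Pool.Agent.W5h6.LocalDil.Digit

/-!
# Local sums of dilates: few cosets of a finite subgroup

If `|A + n A| ≤ K |A|` for all `n ≤ J`, where `J ≥ (2 K) ^ 100`, then `A` meets at most `K` cosets of
a finite subgroup.
-/

set_option autoImplicit false

namespace Pool.Agent.W5h6.LocDil

open Finset Pool.Agent.TH414.Dil
open scoped Pointwise Classical

variable {G : Type*} [AddCommGroup G]

/-- the subgroup generated by the differences of finite order -/
theorem torsion_start (A : Finset G) :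
    ∃ U : AddSubgroup G, Finite U ∧ ∀ β ∈ bar U A, ∀ δ ∈ bar U A, β - δ ≠ 0 →
      addOrderOf (β - δ) = 0 := by
  set S : Finset G := ((A ×ˢ A).image (fun p => p.1 - p.2)).filter
    (fun x => IsOfFinAddOrder x) with hS
  set U := AddSubgroup.closure (S : Set G) with hU
  have htor : ∀ x ∈ U, IsOfFinAddOrder x := by
    intro x hx
    refine AddSubgroup.closure_induction (p := fun x _ => IsOfFinAddOrder x) ?_ ?_ ?_ ?_ hx
    · intro y hy
      exact (Finset.mem_filter.1 (Finset.mem_coe.1 hy)).2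
    · exact IsOfFinAddOrder.zero
    · intro y z _ _ hy hz
      exact hy.add hz
    · intro y _ hy
      exact hy.neg
  have hfg : AddGroup.FG U := (AddGroup.fg_iff_addSubgroup_fg U).2 ⟨S, rfl⟩
  have hUtor : IsAddTorsion U := by
    intro x
    have h := htor x.1 x.2
    rw [isOfFinAddOrder_iff_nsmul_eq_zero] at h ⊢
    obtain ⟨n, hn, h⟩ := h
    exact ⟨n, hn, Subtype.ext (by simpa using h)⟩
  have hfin : Finite U := AddCommGroup.finite_of_fg_isAddTorsion U hUtor
  refine ⟨U, hfin, ?_⟩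
  intro β hβ δ hδ hne
  obtain ⟨b, hb, rfl⟩ := exists_rep hβ
  obtain ⟨d, hd, rfl⟩ := exists_rep hδ
  rw [addOrderOf_eq_zero_iff]
  intro hfo
  apply hne
  rw [isOfFinAddOrder_iff_nsmul_eq_zero] at hfo
  obtain ⟨n, hn, h⟩ := hfo
  rw [← QuotientAddGroup.mk_sub, ← QuotientAddGroup.mk_nsmul, QuotientAddGroup.eq_zero_iff] at h
  have h1 := htor _ h
  have h2 : IsOfFinAddOrder (b - d) := by
    rw [isOfFinAddOrder_iff_nsmul_eq_zero] at h1 ⊢
    obtain ⟨m, hm, h1⟩ := h1
    exact ⟨m * n, Nat.mul_pos hm hn, by rw [mul_nsmul', h1]⟩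
  rw [← QuotientAddGroup.mk_sub, QuotientAddGroup.eq_zero_iff]
  refine AddSubgroup.subset_closure ?_
  rw [hS, Finset.mem_coe, Finset.mem_filter]
  exact ⟨Finset.mem_image.2 ⟨(b, d), Finset.mem_product.2 ⟨hb, hd⟩, rfl⟩, h2⟩

/-- a good multiplier among the first ones -/
theorem exists_good (U : AddSubgroup G) (A : Finset G) (Q : ℕ)
    (hQ : (bar U A).card ^ 4 < Q) (hG : LST Q U A) : ∃ n : ℕ, n < Q ∧ Good U A n := by
  have hT : (bar U A ×ˢ (bar U A ×ˢ (bar U A ×ˢ bar U A))).card = (bar U A).card ^ 4 := by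
    rw [card_product, card_product, card_product]; ring
  by_contra hcon
  push Not at hcon
  -- each quadruple collides for at most one `n < Q`
  have h1 : ∀ t ∈ (bar U A ×ˢ (bar U A ×ˢ (bar U A ×ˢ bar U A))),
      ((range Q).filter (fun n => CP n t.1 t.2.1 t.2.2.1 t.2.2.2)).card ≤ 1 := by
    intro t ht
    rw [mem_product, mem_product, mem_product] at ht
    obtain ⟨α, β, γ, δ⟩ := t
    simp only at ht ⊢
    rw [Finset.card_le_one]
    intro n hn m hm
    simp only [mem_filter, mem_range] at hn hm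
    by_cases h0 : β - δ = 0
    · exfalso
      have hβδ : β = δ := sub_eq_zero.1 h0
      subst hβδ
      exact hn.2.2 ⟨(add_right_cancel hn.2.1).symm, rfl⟩
    · have e : n • (β - δ) = m • (β - δ) := by
        have e1 : n • (β - δ) = γ - α := by
          rw [nsmul_sub, sub_eq_sub_iff_add_eq_add, add_comm, hn.2.1]
        have e2 : m • (β - δ) = γ - α := by
          rw [nsmul_sub, sub_eq_sub_iff_add_eq_add, add_comm, hm.2.1]
        rw [e1, e2]
      rcases hG β ht.2.1 δ ht.2.2.2 h0 with h2 | h2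
      · have hinj := injective_nsmul_iff_not_isOfFinAddOrder.2 (addOrderOf_eq_zero_iff.1 h2)
        exact hinj e
      · have h3 : n ≡ m [MOD addOrderOf (β - δ)] := nsmul_eq_nsmul_iff_modEq.1 e
        exact Nat.ModEq.eq_of_lt_of_lt h3 (lt_of_lt_of_le hn.1 h2) (lt_of_lt_of_le hm.1 h2)
  have h2 : ∑ n ∈ range Q, ((bar U A ×ˢ (bar U A ×ˢ (bar U A ×ˢ bar U A))).filter
      (fun t => CP n t.1 t.2.1 t.2.2.1 t.2.2.2)).card =
      ∑ t ∈ (bar U A ×ˢ (bar U A ×ˢ (bar U A ×ˢ bar U A))),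
        ((range Q).filter (fun n => CP n t.1 t.2.1 t.2.2.1 t.2.2.2)).card :=
    Finset.sum_card_bipartiteAbove_eq_sum_card_bipartiteBelow
      (fun n (t : (G ⧸ U) × (G ⧸ U) × (G ⧸ U) × (G ⧸ U)) => CP n t.1 t.2.1 t.2.2.1 t.2.2.2)
  have h3 : Q ≤ ∑ n ∈ range Q, ((bar U A ×ˢ (bar U A ×ˢ (bar U A ×ˢ bar U A))).filter
      (fun t => CP n t.1 t.2.1 t.2.2.1 t.2.2.2)).card := by
    calc Q = ∑ n ∈ range Q, 1 := by simp
      _ ≤ _ := by
        refine Finset.sum_le_sum fun n hn => ?_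
        have h4 := hcon n (mem_range.1 hn)
        simp only [Good, not_forall] at h4
        obtain ⟨α, hα, β, hβ, γ, hγ, δ, hδ, he, hne⟩ := h4
        refine Finset.card_pos.2 ⟨(α, β, γ, δ), ?_⟩
        rw [mem_filter]
        exact ⟨mem_product.2 ⟨hα, mem_product.2 ⟨hβ, mem_product.2 ⟨hγ, hδ⟩⟩⟩, he, hne⟩
  have h4 : ∑ t ∈ (bar U A ×ˢ (bar U A ×ˢ (bar U A ×ˢ bar U A))),
        ((range Q).filter (fun n => CP n t.1 t.2.1 t.2.2.1 t.2.2.2)).card ≤ (bar U A).card ^ 4 := by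
    refine (Finset.sum_le_card_nsmul _ _ 1 h1).trans ?_
    rw [hT]; simp
  omega

/-- rigidity with the first dilates only -/
theorem rigid_local (U : AddSubgroup G) (A : Finset G) (hA : A.Nonempty) {K : ℝ} {J : ℕ}
    (h : LD K J A) (Q : ℕ) (hG : LST Q U A) (hc : (bar U A).card ^ 4 < Q) (hQ : Q ≤ J + 1) :
    ((bar U A).card : ℝ) ≤ K := by
  obtain ⟨n, hn, hgood⟩ := exists_good U A Q hc hG
  have h7 : ((A.card * (bar U A).card : ℕ) : ℝ) ≤ (A + nd n A).card := by
    exact_mod_cast good_card U A n hgood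
  have hA1 : (0 : ℝ) < A.card := by exact_mod_cast hA.card_pos
  have h8 := h n (by omega)
  push_cast at h7
  have h9 : (A.card : ℝ) * (bar U A).card ≤ A.card * K := by linarith
  exact le_of_mul_le_mul_left h9 hA1

/-- few cosets of a finite subgroup -/
theorem start_local (A : Finset G) (hA : A.Nonempty) {K : ℝ} {J : ℕ} (h : LD K J A)
    (hJ : (2 * K) ^ 100 ≤ (J : ℝ)) :
    ∃ U : AddSubgroup G, Finite U ∧ ((bar U A).card : ℝ) ≤ K := by
  have hK1 : 1 ≤ K := one_le_of_LD hA h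
  have hA1 : (0 : ℝ) < A.card := by exact_mod_cast hA.card_pos
  obtain ⟨U, hfin, hU⟩ := torsion_start A
  refine ⟨U, hfin, ?_⟩
  have hG : LST ((bar U A).card ^ 4 + 1) U A := fun β hβ δ hδ h0 => Or.inl (hU β hβ δ hδ h0)
  obtain ⟨n, hn, hgood⟩ := exists_good U A ((bar U A).card ^ 4 + 1) (Nat.lt_succ_self _) hG
  have h7 : ((A.card * (bar U A).card : ℕ) : ℝ) ≤ (A + nd n A).card := by
    exact_mod_cast good_card U A n hgood
  push_cast at h7
  set c := (bar U A).card with hcdef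
  have hc0 : 0 < c := (hA.image _).card_pos
  have hJ1 : (1 : ℝ) < J := lt_of_lt_of_le (by
    calc (1 : ℝ) < 2 ^ 100 := by norm_num
      _ ≤ (2 * K) ^ 100 := pow_le_pow_left₀ (by norm_num) (by linarith) _) hJ
  have hJ1' : 1 < J := by exact_mod_cast hJ1
  by_cases hcJ : c ^ 4 < J
  · have h8 := h n (by omega)
    have h9 : (A.card : ℝ) * c ≤ A.card * K := by linarith
    exact le_of_mul_le_mul_left h9 hA1
  · exfalso
    push Not at hcJ
    set m := Nat.log J (c ^ 4) with hm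
    have hm1 : 1 ≤ m := by
      rw [hm]
      exact Nat.log_pos hJ1' hcJ
    have hlow : J ^ m ≤ c ^ 4 := Nat.pow_log_le_self J (by positivity)
    have hup : c ^ 4 < J ^ (m + 1) := Nat.lt_pow_succ_log_self hJ1' _
    have h8 := dig_card hA h hJ1'.le (m + 1) n (by omega)
    have h9 : (c : ℝ) ≤ K ^ (10 * (m + 1) + 3) := by
      have h10 : (A.card : ℝ) * c ≤ A.card * K ^ (10 * (m + 1) + 3) := by linarith
      exact le_of_mul_le_mul_left h10 hA1
    have h11 : (2 * K) ^ (100 * m) ≤ (c : ℝ) ^ 4 := by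
      calc (2 * K) ^ (100 * m) = ((2 * K) ^ 100) ^ m := by rw [pow_mul]
        _ ≤ (J : ℝ) ^ m := pow_le_pow_left₀ (by positivity) hJ _
        _ ≤ (c : ℝ) ^ 4 := by exact_mod_cast hlow
    have h12 : (c : ℝ) ^ 4 ≤ (2 * K) ^ (4 * (10 * (m + 1) + 3)) := by
      calc (c : ℝ) ^ 4 ≤ (K ^ (10 * (m + 1) + 3)) ^ 4 := pow_le_pow_left₀ (by positivity) h9 _
        _ = K ^ (4 * (10 * (m + 1) + 3)) := by rw [← pow_mul]; ring_nf
        _ ≤ (2 * K) ^ (4 * (10 * (m + 1) + 3)) :=
            pow_le_pow_left₀ (by linarith) (by linarith) _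
    have h13 : 100 * m ≤ 4 * (10 * (m + 1) + 3) :=
      (pow_le_pow_iff_right₀ (by linarith : (1 : ℝ) < 2 * K)).1 (h11.trans h12)
    omega

/-- the lifting lemma, in terms of a group `P` with coordinates in `G` and in `ℝ` -/
theorem few_values_aux {P : Type*} [AddCommGroup P] (p : P →+ G) (q : P →+ ℝ) (mk : G → P)
    (B : Finset G) (hB : B.Nonempty) {K : ℝ} {J : ℕ} (h : LD K J B)
    (hJ : (2 * K) ^ 100 ≤ (J : ℝ)) (t : G → ℝ) (h1 : ∀ b, p (mk b) = b) (h2 : ∀ b, q (mk b) = t b)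
    (hpq : ∀ x y : P, p x = p y → q x = q y → x = y)
    (ht : ∀ n : ℕ, n ≤ J → ∀ b₁ ∈ B, ∀ b₂ ∈ B, ∀ b₃ ∈ B, ∀ b₄ ∈ B,
      b₁ + n • b₂ = b₃ + n • b₄ → t b₁ + n * t b₂ = t b₃ + n * t b₄) :
    ((B.image t).card : ℝ) ≤ K := by
  set B' : Finset P := B.image mk with hB'
  have hinj : Function.Injective mk := fun a b hab => by
    rw [← h1 a, ← h1 b, hab]
  have hB'ne : B'.Nonempty := hB.image _
  have hcard : B'.card = B.card := Finset.card_image_of_injective _ hinj
  have hLD : LD K J B' := by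
    intro n hn
    have h3 : (B' + nd n B').card ≤ (B + nd n B).card := by
      refine Finset.card_le_card_of_injOn p ?_ ?_
      · intro x hx
        obtain ⟨y, hy, z, hz, rfl⟩ := Finset.mem_add.1 (Finset.mem_coe.1 hx)
        obtain ⟨b, hb, rfl⟩ := Finset.mem_image.1 hy
        obtain ⟨z', hz', rfl⟩ := Finset.mem_image.1 hz
        obtain ⟨b', hb', rfl⟩ := Finset.mem_image.1 hz'
        rw [map_add, map_nsmul, h1, h1]
        exact Finset.mem_coe.2 (Finset.add_mem_add hb (Finset.mem_image_of_mem _ hb'))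
      · intro x hx x' hx' he
        obtain ⟨y, hy, z, hz, rfl⟩ := Finset.mem_add.1 (Finset.mem_coe.1 hx)
        obtain ⟨b₁, hb₁, rfl⟩ := Finset.mem_image.1 hy
        obtain ⟨z', hz', rfl⟩ := Finset.mem_image.1 hz
        obtain ⟨b₂, hb₂, rfl⟩ := Finset.mem_image.1 hz'
        obtain ⟨y', hy', w, hw, rfl⟩ := Finset.mem_add.1 (Finset.mem_coe.1 hx')
        obtain ⟨b₃, hb₃, rfl⟩ := Finset.mem_image.1 hy'
        obtain ⟨w', hw', rfl⟩ := Finset.mem_image.1 hw
        obtain ⟨b₄, hb₄, rfl⟩ := Finset.mem_image.1 hw'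
        have he' : b₁ + n • b₂ = b₃ + n • b₄ := by
          rw [map_add, map_nsmul, h1, h1, map_add, map_nsmul, h1, h1] at he
          exact he
        have h5 := ht n hn b₁ hb₁ b₂ hb₂ b₃ hb₃ b₄ hb₄ he'
        refine hpq _ _ he ?_
        rw [map_add, map_nsmul, h2, h2, map_add, map_nsmul, h2, h2, nsmul_eq_mul, nsmul_eq_mul]
        exact h5
    rw [hcard]
    have h6 : ((B' + nd n B').card : ℝ) ≤ (B + nd n B).card := by exact_mod_cast h3
    exact h6.trans (h n hn)
  obtain ⟨U, hfin, hU⟩ := start_local B' hB'ne hLD hJ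
  refine le_trans ?_ hU
  -- the real coordinate of a finite subgroup vanishes
  have hU0 : ∀ x ∈ U, q x = 0 := by
    intro x hx
    have h1 : IsOfFinAddOrder (⟨x, hx⟩ : U) := isOfFinAddOrder_of_finite _
    rw [isOfFinAddOrder_iff_nsmul_eq_zero] at h1
    obtain ⟨n, hn, h1⟩ := h1
    have h2 := congrArg (fun y : U => q (y : P)) h1
    simp only [AddSubgroup.coe_nsmul, map_nsmul, AddSubgroup.coe_zero, map_zero] at h2
    rcases smul_eq_zero.1 h2 with h3 | h3
    · omega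
    · exact h3
  have h3 : (B.image t).card ≤ (bar U B').card := by
    -- choose a representative of each value
    have hs : ∀ y : ℝ, ∃ b : G, y ∈ B.image t → b ∈ B ∧ t b = y := by
      intro y
      by_cases hy : y ∈ B.image t
      · obtain ⟨b, hb, e⟩ := Finset.mem_image.1 hy
        exact ⟨b, fun _ => ⟨hb, e⟩⟩
      · exact ⟨0, fun h => absurd h hy⟩
    choose s hs using hs
    refine Finset.card_le_card_of_injOn (fun y => ((mk (s y) : P) : P ⧸ U)) ?_ ?_
    · intro y hy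
      exact Finset.mem_coe.2 (mem_bar (Finset.mem_image_of_mem _ (hs y hy).1))
    · intro y hy y' hy' he
      simp only at he
      have h4 : mk (s y) - mk (s y') ∈ U := by
        rw [← QuotientAddGroup.eq_zero_iff, QuotientAddGroup.mk_sub, he, sub_self]
      have h5 := hU0 _ h4
      rw [map_sub, h2, h2, (hs y hy).2, (hs y' hy').2] at h5
      linarith
  exact_mod_cast h3

/-- a real coordinate that is compatible with the small relations takes few values -/
theorem few_values (B : Finset G) (hB : B.Nonempty) {K : ℝ} {J : ℕ} (h : LD K J B)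
    (hJ : (2 * K) ^ 100 ≤ (J : ℝ)) (t : G → ℝ)
    (ht : ∀ n : ℕ, n ≤ J → ∀ b₁ ∈ B, ∀ b₂ ∈ B, ∀ b₃ ∈ B, ∀ b₄ ∈ B,
      b₁ + n • b₂ = b₃ + n • b₄ → t b₁ + n * t b₂ = t b₃ + n * t b₄) :
    ((B.image t).card : ℝ) ≤ K :=
  few_values_aux (AddMonoidHom.fst G ℝ) (AddMonoidHom.snd G ℝ) (fun b => (b, t b)) B hB h hJ t
    (fun _ => rfl) (fun _ => rfl) (fun _ _ h1 h2 => Prod.ext h1 h2) ht

end Pool.Agent.W5h6.LocDil
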